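import Pool.Agent.helper95.FI.SpecA

/-!
# fi:FDE — existence of an associate in the fundamental domain
-/

set_option autoImplicit false

namespace Pool.Agent.FI

theorem FDE_N8 (u v : ℤ × ℤ) : N8 (mul8 u v) = N8 u * N8 v := by
  unfold N8 mul8
  ring

theorem FDE_assoc (u v w : ℤ × ℤ) : mul8 u (mul8 v w) = mul8 (mul8 u v) w := by
  unfold mul8
  ext
  · simp only
    ring
  · simp only
    ring

theorem FDE_step (v ζ : ℤ × ℤ) (hv : N8 v = 1) (h : ∃ u : ℤ × ℤ, N8 u = 1 ∧ Fd (mul8 u (mul8 v ζ))) :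
    ∃ u : ℤ × ℤ, N8 u = 1 ∧ Fd (mul8 u ζ) := by
  obtain ⟨u, hu, hF⟩ := h
  refine ⟨mul8 u v, by rw [FDE_N8, hu, hv, one_mul], ?_⟩
  rw [← FDE_assoc]
  exact hF

theorem FDE_one (ζ : ℤ × ℤ) : mul8 (1, 0) ζ = ζ := by
  unfold mul8
  ext <;> simp

theorem FDE_stop (ζ : ℤ × ℤ) (h : Fd ζ) : ∃ u : ℤ × ℤ, N8 u = 1 ∧ Fd (mul8 u ζ) :=
  ⟨(1, 0), by unfold N8; norm_num, by rw [FDE_one]; exact h⟩

theorem FDE_m (a l : ℤ) : mul8 (3, -1) (a, l) = (3 * a - 8 * l, 3 * l - a) := by
  unfold mul8
  ext
  · simp only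
    ring
  · simp only
    ring

theorem FDE_p (a l : ℤ) : mul8 (3, 1) (a, l) = (3 * a + 8 * l, 3 * l + a) := by
  unfold mul8
  ext
  · simp only
    ring
  · simp only
    ring

theorem FDE_neg (a l : ℤ) : mul8 (-1, 0) (a, l) = (-a, -l) := by
  unfold mul8
  ext
  · simp only
    ring
  · simp only
    ring

theorem FDE_pos (n : ℕ) : ∀ a l : ℤ, l.natAbs = n → a % 2 = 1 → 0 < a → 8 * l ^ 2 < a ^ 2 →
    ∃ u : ℤ × ℤ, N8 u = 1 ∧ Fd (mul8 u (a, l)) := by
  induction n using Nat.strong_induction_on with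
  | _ n ih =>
    intro a l hn ha ha0 h
    by_cases hd : 4 * |l| < a
    · exact FDE_stop _ ⟨ha, Or.inl hd⟩
    · have h4 : a < 4 * |l| := by
        rcases lt_or_eq_of_le (not_lt.1 hd) with h1 | h1
        · exact h1
        · omega
      rcases lt_trichotomy l 0 with hl | hl | hl
      · rw [abs_of_neg hl] at h4
        have h1 : -(2 * l) < a := by nlinarith
        have h2 : 0 < 3 * a + 8 * l := by nlinarith
        refine FDE_step (3, 1) (a, l) (by unfold N8; norm_num) ?_
        rw [FDE_p]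
        refine ih (3 * l + a).natAbs (by omega) _ _ rfl (by omega) h2 ?_
        nlinarith
      · subst hl
        simp at h4
        omega
      · rw [abs_of_pos hl] at h4
        have h1 : 2 * l < a := by nlinarith
        have h2 : 0 < 3 * a - 8 * l := by nlinarith
        refine FDE_step (3, -1) (a, l) (by unfold N8; norm_num) ?_
        rw [FDE_m]
        refine ih (3 * l - a).natAbs (by omega) _ _ rfl (by omega) h2 ?_
        nlinarith

theorem FDE_npos (n : ℕ) : ∀ a l : ℤ, a.natAbs = n → a % 2 = 1 → 0 < l → a ^ 2 < 8 * l ^ 2 →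
    ∃ u : ℤ × ℤ, N8 u = 1 ∧ Fd (mul8 u (a, l)) := by
  induction n using Nat.strong_induction_on with
  | _ n ih =>
    intro a l hn ha hl0 h
    by_cases hd : |a| < 2 * l
    · exact FDE_stop _ ⟨ha, Or.inr hd⟩
    · have h4 : 2 * l < |a| := by
        rcases lt_or_eq_of_le (not_lt.1 hd) with h1 | h1
        · exact h1
        · exfalso
          rcases abs_choice a with h2 | h2
          · rw [h2] at h1
            omega
          · rw [h2] at h1
            omega
      rcases lt_trichotomy a 0 with hl | hl | hl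
      · rw [abs_of_neg hl] at h4
        have h1 : -a < 3 * l := by nlinarith
        refine FDE_step (3, 1) (a, l) (by unfold N8; norm_num) ?_
        rw [FDE_p]
        refine ih (3 * a + 8 * l).natAbs (by omega) _ _ rfl (by omega) (by omega) ?_
        nlinarith
      · omega
      · rw [abs_of_pos hl] at h4
        have h1 : a < 3 * l := by nlinarith
        refine FDE_step (3, -1) (a, l) (by unfold N8; norm_num) ?_
        rw [FDE_m]
        refine ih (3 * a - 8 * l).natAbs (by omega) _ _ rfl (by omega) (by omega) ?_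
        nlinarith

theorem FDE : FDE_stmt := by
  rintro ⟨a, l⟩ ha
  have ha' : a % 2 = 1 := ha
  rcases lt_trichotomy (a ^ 2) (8 * l ^ 2) with h | h | h
  · have hl : l ≠ 0 := by
      rintro rfl
      nlinarith [sq_nonneg a]
    rcases lt_or_gt_of_ne hl with h1 | h1
    · refine FDE_step (-1, 0) (a, l) (by unfold N8; norm_num) ?_
      rw [FDE_neg]
      exact FDE_npos _ (-a) (-l) rfl (by omega) (by omega) (by nlinarith)
    · exact FDE_npos _ a l rfl ha' h1 h
  · exfalso
    have h1 : a ^ 2 % 2 = 1 := by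
      rw [pow_two, Int.mul_emod, ha']
      rfl
    omega
  · have h0 : a ≠ 0 := by
      rintro rfl
      nlinarith [sq_nonneg l]
    rcases lt_or_gt_of_ne h0 with h1 | h1
    · refine FDE_step (-1, 0) (a, l) (by unfold N8; norm_num) ?_
      rw [FDE_neg]
      exact FDE_pos _ (-a) (-l) rfl (by omega) (by omega) (by nlinarith)
    · exact FDE_pos _ a l rfl ha' h1 h

end Pool.Agent.FI
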